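import Pool.Agent.H79.DO.Stmts

/-!
# Project DO, module PDALG: closure of the predicates decided in polynomial time
-/

set_option autoImplicit false

namespace Pool.Agent.H43.DO

open TMLib Pool.Agent.H79.DO
open Pool.Agent.H74.PPAD (num ltB ltB_spec)

theorem pdalg : Pool.Agent.H79.DO.PDALG := by
  intro α β _ _
  refine ⟨?_, ?_, ?_, ?_, ?_, ?_, ?_, ?_, ?_, ?_, ?_, ?_⟩
  · rintro P Q ⟨V, hV, h⟩ ⟨W, hW, h'⟩
    exact ⟨fun x => V x && W x, PTime.and hV hW, fun x => by rw [Bool.and_eq_true, h, h']⟩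
  · rintro P Q ⟨V, hV, h⟩ ⟨W, hW, h'⟩
    exact ⟨fun x => V x || W x, PTime.or hV hW, fun x => by rw [Bool.or_eq_true, h, h']⟩
  · rintro P Q ⟨V, hV, h⟩ ⟨W, hW, h'⟩
    refine ⟨fun x => !V x || W x, PTime.or (PTime.not hV) hW, fun x => ?_⟩
    have e1 := h x
    have e2 := h' x
    cases hv : V x <;> cases hw : W x <;> rw [hv] at e1 <;> rw [hw] at e2 <;> simp_all
  · rintro P ⟨V, hV, h⟩
    refine ⟨fun x => !V x, PTime.not hV, fun x => ?_⟩
    show (!V x) = true ↔ ¬ P x
    rw [← h x]; cases V x <;> simp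
  · rintro P g ⟨V, hV, h⟩ hg
    exact ⟨fun x => V (g x), PTime.comp hV hg, fun x => h (g x)⟩
  · rintro P n ⟨V, hV, h⟩ hn
    refine ⟨fun x => (List.range (n x)).all fun i => V (x, i), PTime.all (PTime.range hn) hV, fun x => ?_⟩
    rw [List.all_eq_true]
    constructor
    · intro hx i hi
      exact (h (x, i)).1 (hx i (List.mem_range.2 hi))
    · intro hx i hi
      exact (h (x, i)).2 (hx i (List.mem_range.1 hi))
  · intro g hg
    exact ⟨g, hg, fun x => Iff.rfl⟩
  · intro g hg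
    refine ⟨fun x => !g x, PTime.not hg, fun x => ?_⟩
    show (!g x) = true ↔ g x = false
    cases g x <;> simp
  · rintro f g ⟨F, hF, hf⟩ ⟨G, hG, hg⟩
    refine ⟨fun x => !ltB (F x) (G x) && !ltB (G x) (F x), by fun_prop, fun x => ?_⟩
    beta_reduce
    rw [ltB_spec, ltB_spec, hf, hg]
    simp only [Bool.and_eq_true, Bool.not_eq_true', decide_eq_false_iff_not, not_lt]
    omega
  · rintro f g ⟨F, hF, hf⟩ ⟨G, hG, hg⟩
    refine ⟨fun x => !ltB (G x) (F x), by fun_prop, fun x => ?_⟩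
    beta_reduce
    rw [ltB_spec, hf, hg]
    simp only [Bool.not_eq_true', decide_eq_false_iff_not, not_lt]
  · rintro f g ⟨F, hF, hf⟩ ⟨G, hG, hg⟩
    refine ⟨fun x => ltB (F x) (G x), by fun_prop, fun x => ?_⟩
    beta_reduce
    rw [ltB_spec, hf, hg, decide_eq_true_iff]
  · intro f g hf hg
    refine ⟨fun x => decide (f x = g x), PTime.eq hf hg, fun x => ?_⟩
    exact decide_eq_true_iff

end Pool.Agent.H43.DO
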