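import Pool.Agent.H79.DO.Stmts

/-!
# Project DO, module SEP: nonnegative separating vectors
-/

set_option autoImplicit false

namespace Pool.Agent.H43.DO

open Pool.Agent.H83 Matrix

variable {S L : Type} [Fintype S] [Fintype L] {T : L → Matrix S S ℝ}

/-- approximate separation -/
lemma approx (hT : IsChain T) {a b : S → ℝ} (ha0 : ∀ s, 0 ≤ a s) (hb0 : ∀ s, 0 ≤ b s)
    (h : ∀ ε > 0, ∃ n, ov T n a b < ε) : ∀ ε > 0, ∃ v ∈ evSpan T, (∀ s, a s * (1 - v s) ≤ ε ∧ v s ≤ 1) ∧
      (∀ s, b s * v s ≤ ε ∧ 0 ≤ v s) := by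
  classical
  intro ε hε
  obtain ⟨n, hn⟩ := h ε hε
  let E : Finset (Fin n → L) := Finset.univ.filter fun u =>
    b ⬝ᵥ ev T (List.ofFn u) ≤ a ⬝ᵥ ev T (List.ofFn u)
  let v : S → ℝ := ∑ u ∈ E, ev T (List.ofFn u)
  have hv0 : ∀ s, 0 ≤ v s := by
    intro s
    simp only [v, Finset.sum_apply]
    exact Finset.sum_nonneg fun u _ => ev_nonneg hT.nonneg _ s
  have hsum : v + ∑ u ∈ Finset.univ.filter (fun u : Fin n → L =>
      ¬ b ⬝ᵥ ev T (List.ofFn u) ≤ a ⬝ᵥ ev T (List.ofFn u)), ev T (List.ofFn u) = 1 := by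
    rw [← hT.sum_ev n]
    exact Finset.sum_filter_add_sum_filter_not _ _ _
  have h1v : ∀ s, 1 - v s = (∑ u ∈ Finset.univ.filter (fun u : Fin n → L =>
      ¬ b ⬝ᵥ ev T (List.ofFn u) ≤ a ⬝ᵥ ev T (List.ofFn u)), ev T (List.ofFn u)) s := by
    intro s
    have := congrFun hsum s
    simp only [Pi.add_apply, Pi.one_apply] at this
    linarith
  have hv1 : ∀ s, 0 ≤ 1 - v s := by
    intro s
    rw [h1v, Finset.sum_apply]
    exact Finset.sum_nonneg fun u _ => ev_nonneg hT.nonneg _ s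
  have hav : a ⬝ᵥ (1 - v) + b ⬝ᵥ v = ov T n a b := by
    unfold ov
    rw [← Finset.sum_filter_add_sum_filter_not Finset.univ (fun u : Fin n → L =>
      b ⬝ᵥ ev T (List.ofFn u) ≤ a ⬝ᵥ ev T (List.ofFn u))]
    rw [add_comm]
    congr 1
    · simp only [v, dotProduct_sum]
      refine Finset.sum_congr rfl fun u hu => ?_
      rw [min_eq_right (Finset.mem_filter.mp hu).2]
    · have : (1 - v : S → ℝ) = ∑ u ∈ Finset.univ.filter (fun u : Fin n → L =>
          ¬ b ⬝ᵥ ev T (List.ofFn u) ≤ a ⬝ᵥ ev T (List.ofFn u)), ev T (List.ofFn u) := by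
        funext s
        exact h1v s
      rw [this, dotProduct_sum]
      refine Finset.sum_congr rfl fun u hu => ?_
      rw [min_eq_left (le_of_lt (not_le.mp (Finset.mem_filter.mp hu).2))]
  have hp1 : 0 ≤ a ⬝ᵥ (1 - v) := dot_nonneg ha0 (fun s => hv1 s)
  have hp2 : 0 ≤ b ⬝ᵥ v := dot_nonneg hb0 hv0
  refine ⟨v, ?_, ?_, ?_⟩
  · exact Submodule.sum_mem _ fun u _ => Submodule.subset_span ⟨_, rfl⟩
  · intro s
    refine ⟨?_, by linarith [hv1 s]⟩
    have : a s * (1 - v s) ≤ a ⬝ᵥ (1 - v) :=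
      Finset.single_le_sum (f := fun s => a s * (1 - v) s)
        (fun t _ => mul_nonneg (ha0 t) (hv1 t)) (Finset.mem_univ s)
    linarith
  · intro s
    refine ⟨?_, hv0 s⟩
    have : b s * v s ≤ b ⬝ᵥ v :=
      Finset.single_le_sum (f := fun s => b s * v s)
        (fun t _ => mul_nonneg (hb0 t) (hv0 t)) (Finset.mem_univ s)
    linarith

/-- limits of the approximate separations -/
lemma limit_sep {s : S} {B : Set S} (h : ∀ ε > 0, ∃ v ∈ evSpan T, 1 - ε ≤ v s ∧ (∀ t, 0 ≤ v t ∧ v t ≤ 1) ∧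
    ∀ t ∈ B, v t ≤ ε) : ∃ v ∈ evSpan T, (∀ t, 0 ≤ v t) ∧ v s = 1 ∧ ∀ t ∈ B, v t = 0 := by
  choose f hf1 hf2 hf3 hf4 using fun n : ℕ => h (1 / ((n : ℝ) + 1)) (by positivity)
  have hK : IsCompact (Set.Icc (0 : S → ℝ) 1) := isCompact_Icc
  obtain ⟨v, hv, φ, hφ, hlim⟩ := hK.tendsto_subseq (x := f) fun n => ⟨fun t => (hf3 n t).1, fun t => (hf3 n t).2⟩
  have hclosed : IsClosed (evSpan T : Set (S → ℝ)) := Submodule.closed_of_finiteDimensional _
  have hlim1 : Filter.Tendsto (fun n : ℕ => 1 / ((φ n : ℝ) + 1)) Filter.atTop (nhds 0) :=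
    (tendsto_one_div_add_atTop_nhds_zero_nat (𝕜 := ℝ)).comp hφ.tendsto_atTop
  have hpt : ∀ t, Filter.Tendsto (fun n => f (φ n) t) Filter.atTop (nhds (v t)) := fun t =>
    (tendsto_pi_nhds.1 hlim) t
  refine ⟨v, hclosed.mem_of_tendsto hlim (Filter.Eventually.of_forall fun n => hf1 _), fun t => hv.1 t, ?_, ?_⟩
  · refine le_antisymm (hv.2 s) ?_
    have h1 : Filter.Tendsto (fun n : ℕ => 1 - 1 / ((φ n : ℝ) + 1)) Filter.atTop (nhds 1) := by
      simpa using (tendsto_const_nhds (x := (1 : ℝ))).sub hlim1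
    exact le_of_tendsto_of_tendsto' h1 (hpt s) fun n => hf2 _
  · intro t ht
    refine le_antisymm ?_ (hv.1 t)
    exact le_of_tendsto_of_tendsto' (hpt t) hlim1 fun n => hf4 _ t ht

lemma ov_single [DecidableEq S] (hT : IsChain T) {α β : S → ℝ} (hα : ∀ s, 0 ≤ α s) (hβ : ∀ s, 0 ≤ β s) {s t : S} {c : ℝ}
    (hc : 0 ≤ c) (h1 : c ≤ α s) (h2 : c ≤ β t) (n : ℕ) :
    c * ov T n (Pi.single s 1) (Pi.single t 1) ≤ ov T n α β := by
  unfold ov
  rw [Finset.mul_sum]
  refine Finset.sum_le_sum fun u _ => ?_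
  rw [single_one_dotProduct, single_one_dotProduct]
  have hs := ev_nonneg hT.nonneg (List.ofFn u)
  have e1 : α s * ev T (List.ofFn u) s ≤ α ⬝ᵥ ev T (List.ofFn u) :=
    Finset.single_le_sum (f := fun s => α s * ev T (List.ofFn u) s)
      (fun t _ => mul_nonneg (hα t) (hs t)) (Finset.mem_univ s)
  have e2 : β t * ev T (List.ofFn u) t ≤ β ⬝ᵥ ev T (List.ofFn u) :=
    Finset.single_le_sum (f := fun s => β s * ev T (List.ofFn u) s)
      (fun t _ => mul_nonneg (hβ t) (hs t)) (Finset.mem_univ t)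
  refine le_min ?_ ?_
  · exact (mul_le_mul_of_nonneg_left (min_le_left _ _) hc).trans ((mul_le_mul_of_nonneg_right h1 (hs s)).trans e1)
  · exact (mul_le_mul_of_nonneg_left (min_le_right _ _) hc).trans ((mul_le_mul_of_nonneg_right h2 (hs t)).trans e2)

lemma min_sum_le {ι : Type*} (B : Finset ι) (x : ℝ) (y : ι → ℝ) (hx : 0 ≤ x) (hy : ∀ i, 0 ≤ y i) :
    min x (∑ i ∈ B, y i) ≤ ∑ i ∈ B, min x (y i) := by
  classical
  induction B using Finset.induction_on with
  | empty => simp [hx]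
  | insert i B hi ih =>
    rw [Finset.sum_insert hi, Finset.sum_insert hi]
    have h1 : 0 ≤ ∑ i ∈ B, y i := Finset.sum_nonneg fun i _ => hy i
    have h2 : min x (y i + ∑ i ∈ B, y i) ≤ min x (y i) + min x (∑ i ∈ B, y i) := by
      have := hy i
      rcases le_total x (y i) with h | h <;> rcases le_total x (∑ i ∈ B, y i) with h' | h'
      · rw [min_eq_left h, min_eq_left h']; exact (min_le_left _ _).trans (by linarith)
      · rw [min_eq_left h, min_eq_right h']; exact (min_le_left _ _).trans (by linarith)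
      · rw [min_eq_right h, min_eq_left h']; exact (min_le_left _ _).trans (by linarith)
      · rw [min_eq_right h, min_eq_right h']; exact min_le_right _ _
    linarith

theorem sep : Pool.Agent.H79.DO.SEP := by
  intro S L _ _ T hT α β hα hβ h s
  classical
  have key : ∀ t, (∃ u : List L, 0 < act T u α s ∧ 0 < act T u β t) → ∀ ε > 0,
      ∃ n, ov T n (Pi.single s 1) (Pi.single t 1) < ε := by
    rintro t ⟨u, h1, h2⟩ ε hε
    set c := min (act T u α s) (act T u β t) with hc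
    have hc0 : 0 < c := lt_min h1 h2
    obtain ⟨n, hn⟩ := h (c * ε) (by positivity)
    refine ⟨n, ?_⟩
    have e1 := ov_single hT (act_nonneg hT.nonneg u hα) (act_nonneg hT.nonneg u hβ) hc0.le (min_le_left _ _)
      (min_le_right _ _) n
    have e2 := ov_act_le hT n u hα hβ
    have e3 := ov_antitone hT α β (Nat.le_add_right n u.length)
    have e4 : c * ov T n (Pi.single s 1) (Pi.single t 1) < c * ε := by
      refine lt_of_le_of_lt e1 (lt_of_le_of_lt e2 (lt_of_le_of_lt e3 hn))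
    exact lt_of_mul_lt_mul_left e4 hc0.le
  let B : Finset S := Finset.univ.filter fun t => ∃ u : List L, 0 < act T u α s ∧ 0 < act T u β t
  let γ : S → ℝ := fun t => if t ∈ B then 1 else 0
  have hγ0 : ∀ t, 0 ≤ γ t := by
    intro t; simp only [γ]; split_ifs <;> norm_num
  have hγ : ∀ v : S → ℝ, γ ⬝ᵥ v = ∑ t ∈ B, v t := by
    intro v
    simp only [dotProduct, γ, ite_mul, one_mul, zero_mul, Finset.sum_ite_mem, Finset.univ_inter]
  have hs0 : ∀ t, 0 ≤ (Pi.single s 1 : S → ℝ) t := by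
    intro t
    by_cases hts : t = s
    · subst hts; simp
    · simp [hts]
  have hov : ∀ ε > 0, ∃ n, ov T n (Pi.single s 1) γ < ε := by
    intro ε hε
    have hp : 0 < ε / (B.card + 1) := by positivity
    choose! N hN using fun t (ht : t ∈ B) => key t (Finset.mem_filter.1 ht).2 _ hp
    refine ⟨B.sup N, ?_⟩
    have e1 : ov T (B.sup N) (Pi.single s 1) γ ≤ ∑ t ∈ B, ov T (B.sup N) (Pi.single s 1) (Pi.single t 1) := by
      unfold ov
      rw [Finset.sum_comm]
      refine Finset.sum_le_sum fun u _ => ?_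
      have := min_sum_le B (Pi.single s 1 ⬝ᵥ ev T (List.ofFn u)) (ev T (List.ofFn u))
        (dot_nonneg hs0 (ev_nonneg hT.nonneg _)) (ev_nonneg hT.nonneg _)
      rw [hγ]
      simpa only [single_one_dotProduct] using this
    have e2 : ∑ t ∈ B, ov T (B.sup N) (Pi.single s 1) (Pi.single t 1) ≤ ∑ t ∈ B, ε / (B.card + 1) := by
      refine Finset.sum_le_sum fun t ht => ?_
      exact (ov_antitone hT _ _ (Finset.le_sup ht)).trans (hN t ht).le
    rw [Finset.sum_const, nsmul_eq_mul] at e2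
    have e3 : (B.card : ℝ) * (ε / (B.card + 1)) < ε := by
      rw [mul_div_assoc', div_lt_iff₀ (by positivity)]
      nlinarith
    linarith
  have happ := approx hT hs0 hγ0 hov
  obtain ⟨v, hv, hv0, hvs, hvB⟩ := limit_sep (T := T) (s := s) (B := (B : Set S)) (by
    intro ε hε
    obtain ⟨v, hv, h1, h2⟩ := happ ε hε
    refine ⟨v, hv, ?_, fun t => ⟨(h2 t).2, (h1 t).2⟩, ?_⟩
    · have := (h1 s).1
      simp at this
      linarith
    · intro t ht
      have := (h2 t).1
      have hb : γ t = 1 := by simp only [γ]; rw [if_pos (by exact_mod_cast ht)]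
      rw [hb, one_mul] at this
      exact this)
  refine ⟨v, hv, hv0, by rw [hvs]; exact one_pos, fun t ht => hvB t ?_⟩
  simp only [B, Finset.coe_filter, Finset.mem_univ, true_and, Set.mem_ofPred_eq]
  exact ht

end Pool.Agent.H43.DO
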